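import Pool.Agent.KS6_48.VP.Fin

/-!
# Regular measures and Vandermonde asymptotics in several variables, for all exponents

Let `K` be a compact subset of `ℂⁿ` and `μ` a finite measure carried by `K`.  The conditions

* `CondRp p K μ`: `limsup (|f_j(z)| / ‖f_j‖_{L^p(μ)}) ^ (1 / deg f_j) ≤ exp V_K^*(z)` for all `z` and
  all sequences of nonzero polynomials with `deg f_j → ∞`,
* `CondZq q μ δ`: `(∫ |VDM_k|^q dμ^{N_k}) ^ (1 / (q l_k)) → δ`, the transfinite diameter of `K`,

are equivalent to each other for all exponents `p, q ∈ (0, ∞)`, so that none of them depends on the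
exponent.  The question is the case `p = q = 2`.

Ideas.  (1) The moments of `|VDM_k|` for different exponents are compared by Hölder's inequality and
by interpolation with the maximum.  (2) If `p < 2` and `∫ |f|^p dμ ≤ 1`, then `∫ |f|² dμ_f ≤ 1` for
`μ_f = max(1, |f|)^{p-2} μ`, and `∫ |VDM_k|² dμ_f^{N_k}` is bounded below by the `p`-th moment for
`μ`, up to a factor `C^{N_k}` with `C` independent of `f`; hence the Gram determinants of all these
measures have good lower bounds, uniformly, which gives the bound for `f`.  (3) If `p > 2`, a basis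
of Auerbach type of the polynomials of degree at most `k` in `L^p(μ)` gives weights `h_k` with
`∫ h_k^p dμ ≤ N_k^p` and `‖f‖_{L^p(μ)}² ≤ ∫ |f|² h_k^{p-2} dμ`, so that the Bergman functions of the
measures `h_k^{p-2} μ` have extremal growth, and their Gram determinants are compared with the
`p`-th moment by Hölder's inequality.
-/

set_option autoImplicit false

open MeasureTheory Filter Topology Pool.Agent.H940R3.VD

namespace Pool.Agent.Results.MP_a839f6_an.AllExponents

/-- Condition (R) with the norm of `L^p(μ)`: for every sequence of nonzero polynomials whose degrees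
tend to infinity, and all `z`, `limsup (|f_j(z)| / ‖f_j‖_{L^p(μ)}) ^ (1 / deg f_j) ≤ exp V_K^*(z)`. -/
def CondRp {n : ℕ} (p : ℝ) (K : Set (Fin n → ℂ)) (μ : Measure (Fin n → ℂ)) : Prop :=
  ∀ f : ℕ → MvPolynomial (Fin n) ℂ, (∀ j, f j ≠ 0) →
    Tendsto (fun j => (f j).totalDegree) atTop atTop → ∀ z : Fin n → ℂ,
      limsup (fun j => (‖MvPolynomial.eval z (f j)‖ₑ /
        eLpNorm (fun w => MvPolynomial.eval w (f j)) (ENNReal.ofReal p) μ) ^
          (1 / ((f j).totalDegree : ℝ))) atTop ≤ (VKstar K z).exp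

/-- The `q`-th moment of the Vandermonde determinant, `∫ |VDM_k(x_1, …, x_{N_k})|^q dμ(x_1)⋯`. -/
noncomputable def Zkq {n : ℕ} (q : ℝ) (μ : Measure (Fin n → ℂ)) (k : ℕ) : ℝ :=
  ∫ x, ‖vdm n k x‖ ^ q ∂(Measure.pi fun _ : Ix n k => μ)

/-- Condition (Z) for the exponent `q`: the `(q l_k)`-th roots of the moments tend to `δ`. -/
def CondZq {n : ℕ} (q : ℝ) (μ : Measure (Fin n → ℂ)) (δ : ℝ) : Prop :=
  Tendsto (fun k => Zkq q μ k ^ (1 / (q * lk n k))) atTop (𝓝 δ)

/-- For every `n ≥ 1`, every compact `K ⊂ ℂⁿ`, of transfinite diameter `δ`, and every finite measure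
`μ` carried by `K`: the conditions `CondRp p K μ` and `CondZq q μ δ` are equivalent for all
exponents `0 < p, q < ∞`. In particular (`p = q = 2`) conditions (R) and (Z) are equivalent. -/
theorem result (n : ℕ) (hn : 1 ≤ n) (K : Set (Fin n → ℂ)) (hKc : IsCompact K)
    (μ : Measure (Fin n → ℂ)) [IsFiniteMeasure μ] (hμ : μ Kᶜ = 0) :
    ∃ δ : ℝ, Tendsto (fun k => maxVdm K k ^ (1 / lk n k)) atTop (𝓝 δ) ∧
      (∀ p q : ℝ, 0 < p → 0 < q → (CondRp p K μ ↔ CondZq q μ δ)) ∧
      (∀ p q : ℝ, 0 < p → 0 < q → (CondRp p K μ ↔ CondRp q K μ)) ∧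
      (CondR K μ ↔ CondZ μ δ) := by
  obtain ⟨δ, hδ, h2⟩ := Pool.Agent.H940R3.Zah.full hn hKc hμ
  have h : ∀ p q : ℝ, 0 < p → 0 < q → (CondRp p K μ ↔ CondZq q μ δ) := fun p q hp hq =>
    Pool.Agent.KS6_48.VP.main hn hKc hμ hδ hp hq
  exact ⟨δ, hδ, h, fun p q hp hq => (h p 1 hp one_pos).trans (h q 1 hq one_pos).symm, h2⟩

end Pool.Agent.Results.MP_a839f6_an.AllExponents
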